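import Pool.Agent.Helper64.LN.GoalsB

/-! Packet COL of project LN (MP_2b9d24_gt, helper64): the collar. -/

set_option autoImplicit false

open Topology Filter Set Metric UpperHalfPlane
open scoped MatrixGroups

namespace Pool.Agent.Helper50.LN

open Pool.Agent.Helper64 Pool.Agent.Helper64.LN

section cover
variable {X : Type*} [TopologicalSpace X] {B : Set X} {u : ℍ → X}

lemma umem (hu : Uni B u) (z : ℍ) : u z ∈ Bᶜ := by
  rw [← hu.range]
  exact ⟨z, rfl⟩

lemma isCov (hu : Uni B u) : IsCoveringMap (Set.codRestrict u Bᶜ (umem hu)) := by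
  have e : u ⁻¹' Bᶜ = univ := by
    ext z
    simp only [mem_preimage, mem_univ, iff_true]
    exact umem hu z
  let g : ℍ ≃ₜ (u ⁻¹' Bᶜ : Set ℍ) :=
    (Homeomorph.Set.univ ℍ).symm.trans (Homeomorph.setCongr e.symm)
  have h := (hu.cov.isCoveringMap_restrictPreimage).comp_homeomorph g
  convert! h using 1

lemma ucont (hu : Uni B u) : Continuous u := continuous_subtype_val.comp (isCov hu).continuous

lemma ueqOn (hu : Uni B u) {A : Type*} [TopologicalSpace A]
    {s : Set A} (hs : IsPreconnected s) {g₁ g₂ : A → ℍ} (h₁ : ContinuousOn g₁ s)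
    (h₂ : ContinuousOn g₂ s) (h : ∀ x ∈ s, u (g₁ x) = u (g₂ x)) {x₀ : A} (hx : x₀ ∈ s)
    (h0 : g₁ x₀ = g₂ x₀) : EqOn g₁ g₂ s := by
  refine (isCov hu).eqOn_of_comp_eqOn hs h₁ h₂ ?_ hx h0
  intro x hx'
  apply Subtype.ext
  exact h x hx'

end cover

lemma sf_cont (g : SL(2, ℝ)) : Continuous (sf g) := by
  unfold sf
  have h1 := UpperHalfPlane.continuous_re
  have h2 := UpperHalfPlane.continuous_im
  fun_prop

lemma both_aux (g : SL(2, ℝ)) (z : ℍ) (δ : ℝ → ℍ) (hδ : Continuous δ) (h0 : δ 0 = z)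
    (k : ℝ) (hk : k ≠ 0) (m : ℝ → ℝ) (hp : ∀ h, 0 < h → 0 < m h) (hn : ∀ h, h < 0 → m h < 0)
    (he : ∀ h, sf g (δ h) = k * m h) :
    (∃ᶠ w in 𝓝 z, 0 < sf g w) ∧ ∃ᶠ w in 𝓝 z, sf g w < 0 := by
  have t1 : Tendsto δ (𝓝[>] 0) (𝓝 z) := by
    rw [← h0]
    exact hδ.continuousAt.mono_left nhdsWithin_le_nhds
  have t2 : Tendsto δ (𝓝[<] 0) (𝓝 z) := by
    rw [← h0]
    exact hδ.continuousAt.mono_left nhdsWithin_le_nhds
  have e1 : ∀ᶠ h in 𝓝[>] (0 : ℝ), 0 < m h := by
    filter_upwards [self_mem_nhdsWithin] with h hh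
    exact hp h hh
  have e2 : ∀ᶠ h in 𝓝[<] (0 : ℝ), m h < 0 := by
    filter_upwards [self_mem_nhdsWithin] with h hh
    exact hn h hh
  rcases lt_or_gt_of_ne hk with hk | hk
  · constructor
    · refine t2.frequently (Eventually.frequently ?_)
      filter_upwards [e2] with h hh
      rw [he]
      exact mul_pos_of_neg_of_neg hk hh
    · refine t1.frequently (Eventually.frequently ?_)
      filter_upwards [e1] with h hh
      rw [he]
      exact mul_neg_of_neg_of_pos hk hh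
  · constructor
    · refine t1.frequently (Eventually.frequently ?_)
      filter_upwards [e1] with h hh
      rw [he]
      exact mul_pos hk hh
    · refine t2.frequently (Eventually.frequently ?_)
      filter_upwards [e2] with h hh
      rw [he]
      exact mul_neg_of_pos_of_neg hk hh

lemma pt_pos (x y : ℝ) (hy : 0 < y) : 0 < ((x : ℂ) + (y : ℂ) * Complex.I).im := by
  simpa using hy

lemma pt_re (x y : ℝ) (hy : 0 < y) :
    (UpperHalfPlane.mk ((x : ℂ) + (y : ℂ) * Complex.I) (pt_pos x y hy)).re = x := by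
  change ((x : ℂ) + (y : ℂ) * Complex.I).re = x
  simp

lemma pt_im (x y : ℝ) (hy : 0 < y) :
    (UpperHalfPlane.mk ((x : ℂ) + (y : ℂ) * Complex.I) (pt_pos x y hy)).im = y := by
  change ((x : ℂ) + (y : ℂ) * Complex.I).im = y
  simp

lemma both (g : SL(2, ℝ)) (z z' : ℍ) (h0 : sf g z = 0) (h1 : sf g z' ≠ 0) :
    (∃ᶠ w in 𝓝 z, 0 < sf g w) ∧ ∃ᶠ w in 𝓝 z, sf g w < 0 := by
  have hy := z.im_pos
  by_cases hc : g 1 0 = 0
  · have hd : g 1 1 - g 0 0 ≠ 0 := by
      intro hd
      apply h1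
      unfold sf at h0 ⊢
      rw [hc, hd] at h0 ⊢
      linarith
    refine both_aux g z (fun h => UpperHalfPlane.mk (((z.re + h : ℝ) : ℂ) + (z.im : ℂ) * Complex.I)
      (pt_pos _ _ hy)) ?_ ?_ _ hd (fun h => h) (fun h hh => hh) (fun h hh => hh) ?_
    · refine Continuous.upperHalfPlaneMk ?_ _
      fun_prop
    · apply UpperHalfPlane.ext
      change ((z.re + 0 : ℝ) : ℂ) + (z.im : ℂ) * Complex.I = (z : ℂ)
      rw [add_zero]
      exact Complex.re_add_im (z : ℂ)
    · intro h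
      unfold sf at h0 ⊢
      rw [pt_re _ _ hy]
      rw [hc] at h0 ⊢
      linarith
  · refine both_aux g z (fun h => UpperHalfPlane.mk ((z.re : ℂ) +
      ((z.im * Real.exp h : ℝ) : ℂ) * Complex.I)
      (pt_pos _ _ (mul_pos hy (Real.exp_pos h)))) ?_ ?_ (g 1 0 * z.im ^ 2)
      (mul_ne_zero hc (by positivity)) (fun h => Real.exp h ^ 2 - 1) ?_ ?_ ?_
    · refine Continuous.upperHalfPlaneMk ?_ _
      have := Real.continuous_exp
      fun_prop
    · apply UpperHalfPlane.ext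
      change (z.re : ℂ) + ((z.im * Real.exp 0 : ℝ) : ℂ) * Complex.I = (z : ℂ)
      rw [Real.exp_zero, mul_one]
      exact Complex.re_add_im (z : ℂ)
    · intro h hh
      have : 1 < Real.exp h := Real.one_lt_exp_iff.2 hh
      nlinarith
    · intro h hh
      have e1 : Real.exp h < 1 := Real.exp_lt_one_iff.2 hh
      have e2 := Real.exp_pos h
      nlinarith
    · intro h
      unfold sf at h0 ⊢
      rw [pt_re _ _ (mul_pos hy (Real.exp_pos h)), pt_im _ _ (mul_pos hy (Real.exp_pos h))]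
      linear_combination h0

lemma sign_const {S : Set (ℝ × ℝ)} (hS : IsPreconnected S) {f : ℝ × ℝ → ℝ}
    (hf : ContinuousOn f S) (h0 : ∀ x ∈ S, f x ≠ 0) {x y : ℝ × ℝ} (hx : x ∈ S) (hy : y ∈ S) :
    0 < f x * f y := by
  by_contra h
  have h1 := h0 x hx
  have h2 := h0 y hy
  have h3 : f x * f y < 0 := lt_of_le_of_ne (not_lt.1 h) (mul_ne_zero h1 h2)
  rcases mul_neg_iff.1 h3 with ⟨a, b⟩ | ⟨a, b⟩
  · obtain ⟨z, hz, hz'⟩ := hS.intermediate_value hy hx hf ⟨b.le, a.le⟩
    exact h0 z hz hz'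
  · obtain ⟨z, hz, hz'⟩ := hS.intermediate_value hx hy hf ⟨a.le, b.le⟩
    exact h0 z hz hz'

lemma norm_pt {t s : ℝ} (hs : 0 ≤ s) :
    ‖(s : ℂ) * Complex.exp (2 * Real.pi * Complex.I * t)‖ = s := by
  have e : (2 * Real.pi * Complex.I * t : ℂ) = ((2 * Real.pi * t : ℝ) : ℂ) * Complex.I := by
    push_cast
    ring
  rw [norm_mul, e, Complex.norm_exp_ofReal_mul_I, mul_one, Complex.norm_real,
    Real.norm_of_nonneg hs]

theorem goalCOL.{v} (hPRE : GoalPRE.{v}) : GoalCOL.{v} := by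
  intro X _ _ p P u C K γ ω hc
  have hu := hc.uni
  obtain ⟨AA, hAA⟩ : ∃ AA : Set (ℝ × ℝ), AA = univ ×ˢ Ioo (1 / 2 : ℝ) 2 := ⟨_, rfl⟩
  have hmem : ∀ t s : ℝ, (t, s) ∈ AA ↔ s ∈ Ioo (1 / 2 : ℝ) 2 := by
    intro t s
    rw [hAA]
    simp
  have hAo : IsOpen AA := by
    rw [hAA]
    exact isOpen_univ.prod isOpen_Ioo
  have hAc : Convex ℝ AA := by
    rw [hAA]
    exact convex_univ.prod (convex_Ioo _ _)
  have h1m : (1 : ℝ) ∈ Ioo (1 / 2 : ℝ) 2 := ⟨by norm_num, by norm_num⟩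
  have hsrc : ∀ t : ℝ, ∀ s ∈ Ioo (1 / 2 : ℝ) 2,
      (s : ℂ) * Complex.exp (2 * Real.pi * Complex.I * t) ∈ C.source := by
    intro t s hs
    rw [hc.src]
    change 1 / 2 < ‖_‖ ∧ ‖_‖ < 2
    rw [norm_pt (by linarith [hs.1])]
    exact hs
  have hcontr : ContractibleSpace AA := hAc.contractibleSpace ⟨(0, 1), (hmem 0 1).2 h1m⟩
  have hlpc : LocallyPathConnectedSpace AA := hAo.locallyPathConnectedSpace
  have hfc : Continuous (fun q : AA =>
      C ((q.1.2 : ℂ) * Complex.exp (2 * Real.pi * Complex.I * q.1.1))) := by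
    refine C.continuousOn.comp_continuous (by fun_prop) ?_
    rintro ⟨⟨t, s⟩, hq⟩
    exact hsrc t s ((hmem t s).1 hq)
  obtain ⟨F, ⟨hF0, hF⟩, -⟩ := hu.cov.existsUnique_continuousMap_lifts
    (⟨_, hfc⟩ : C(AA, X)) (a₀ := ⟨(0, 1), (hmem 0 1).2 h1m⟩) (e₀ := ω 0)
    (by
      rw [hc.core]
      simp) (by
      rintro ⟨⟨t, s⟩, hq⟩
      exact hc.tgt _ (hsrc t s ((hmem t s).1 hq)))
  classical
  obtain ⟨W, hWdef⟩ : ∃ W : ℝ → ℝ → ℍ, W = fun t s =>
    if h : (t, s) ∈ AA then F ⟨(t, s), h⟩ else ω t := ⟨_, rfl⟩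
  have hW : ∀ t s (h : (t, s) ∈ AA), W t s = F ⟨(t, s), h⟩ := by
    intro t s h
    rw [hWdef]
    exact dif_pos h
  have hcont : ContinuousOn (fun q : ℝ × ℝ => W q.1 q.2) AA := by
    rw [continuousOn_iff_continuous_domRestrict]
    have e : AA.domRestrict (fun q : ℝ × ℝ => W q.1 q.2) = F := by
      funext q
      exact hW q.1.1 q.1.2 q.2
    rw [e]
    exact F.continuous
  have hlift : ∀ t, ∀ s ∈ Ioo (1 / 2 : ℝ) 2,
      u (W t s) = C (s * Complex.exp (2 * Real.pi * Complex.I * t)) := by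
    intro t s hs
    rw [hW t s ((hmem t s).2 hs)]
    exact congrFun hF ⟨(t, s), (hmem t s).2 hs⟩
  have hW0 : W 0 1 = ω 0 := by
    rw [hW 0 1 ((hmem 0 1).2 h1m)]
    exact hF0
  have hone : ∀ t, W t 1 = ω t := by
    intro t
    have h := ueqOn hu (A := ℝ) isPreconnected_univ (g₁ := fun t => W t 1) (g₂ := fun t => ω t)
      (by
        refine (hcont.comp (f := fun t : ℝ => (t, (1 : ℝ))) (by fun_prop) ?_)
        intro t _
        exact (hmem t 1).2 h1m)
      ω.continuous.continuousOn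
      (by
        intro t _
        rw [hlift t 1 h1m, hc.core]
        simp) (x₀ := 0) (mem_univ _) hW0
    exact h (mem_univ t)
  have hper : ∀ t, ∀ s ∈ Ioo (1 / 2 : ℝ) 2, W (t + 1) s = γ (W t s) := by
    intro t s hs
    have h := ueqOn hu (A := ℝ × ℝ) hAc.isPreconnected (g₁ := fun q => W (q.1 + 1) q.2)
      (g₂ := fun q => γ (W q.1 q.2))
      (by
        refine (hcont.comp (f := fun q : ℝ × ℝ => (q.1 + 1, q.2)) (by fun_prop) ?_)
        rintro ⟨t, s⟩ hq
        exact (hmem _ _).2 ((hmem t s).1 hq))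
      (γ.continuous.comp_continuousOn hcont)
      (by
        rintro ⟨t, s⟩ hq
        have hs := (hmem t s).1 hq
        change u (W (t + 1) s) = u (γ (W t s))
        rw [deck_apply hc.deck, hlift _ s hs, hlift t s hs]
        congr 2
        have e : (2 * Real.pi * Complex.I * ((t + 1 : ℝ) : ℂ) : ℂ) =
            2 * Real.pi * Complex.I * t + 2 * Real.pi * Complex.I := by
          push_cast
          ring
        rw [e, Complex.exp_add, Complex.exp_two_pi_mul_I, mul_one])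
      (x₀ := (0, 1)) ((hmem 0 1).2 h1m)
      (by
        change W (0 + 1) 1 = γ (W 0 1)
        rw [hone, hone, hc.per])
    exact h ((hmem t s).2 hs)
  -- the image of `W` is a neighbourhood of the axis
  have hsurj : ∀ t, ∀ᶠ w in 𝓝 (ω t), ∃ t' s', s' ∈ Ioo (1 / 2 : ℝ) 2 ∧ W t' s' = w := by
    intro t
    obtain ⟨e, he⟩ : ∃ e : ℂ, e = Complex.exp (2 * Real.pi * Complex.I * t) := ⟨_, rfl⟩
    have hen : ‖e‖ = 1 := by
      have := norm_pt (t := t) (s := 1) zero_le_one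
      rw [← he] at this
      simpa using this
    have he0 : e ≠ 0 := by
      intro h
      rw [h] at hen
      simp at hen
    have hesrc : e ∈ C.source := by
      have := hsrc t 1 h1m
      rw [← he] at this
      simpa using this
    have hcore : u (ω t) = C e := by rw [he]; exact hc.core t
    obtain ⟨ζ, hζ⟩ : ∃ ζ : ℍ → ℂ, ζ = fun w => C.symm (u w) * e⁻¹ := ⟨_, rfl⟩
    obtain ⟨N0, hN0d⟩ : ∃ N0 : Set ℍ, N0 = {w | u w ∈ C.target ∧ ζ w ∈ Complex.slitPlane} :=
      ⟨_, rfl⟩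
    have hζc : ∀ w, u w ∈ C.target → ContinuousAt ζ w := by
      intro w hw
      rw [hζ]
      exact ((C.continuousAt_symm hw).comp (ucont hu).continuousAt).mul continuousAt_const
    have h1 : u (ω t) ∈ C.target := by
      rw [hcore]
      exact C.map_source hesrc
    have hN0 : N0 ∈ 𝓝 (ω t) := by
      have h2 : ∀ᶠ w in 𝓝 (ω t), u w ∈ C.target :=
        (ucont hu).continuousAt.eventually (C.open_target.mem_nhds h1)
      have h4 : ζ (ω t) = 1 := by
        rw [hζ]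
        change C.symm (u (ω t)) * e⁻¹ = 1
        rw [hcore, C.left_inv hesrc, mul_inv_cancel₀ he0]
      have h5 : ∀ᶠ w in 𝓝 (ω t), ζ w ∈ Complex.slitPlane := by
        refine (hζc _ h1).eventually ?_
        rw [h4]
        exact Complex.isOpen_slitPlane.mem_nhds Complex.one_mem_slitPlane
      rw [hN0d]
      exact h2.and h5
    have hN : connectedComponentIn N0 (ω t) ∈ 𝓝 (ω t) := connectedComponentIn_mem_nhds hN0
    obtain ⟨N, hNd⟩ : ∃ N : Set ℍ, N = connectedComponentIn N0 (ω t) := ⟨_, rfl⟩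
    rw [← hNd] at hN
    have hNsub : ∀ w ∈ N, u w ∈ C.target ∧ ζ w ∈ Complex.slitPlane := by
      intro w hw
      rw [hNd] at hw
      have := connectedComponentIn_subset N0 (ω t) hw
      rw [hN0d] at this
      exact this
    have hNpre : IsPreconnected N := by
      rw [hNd]
      exact isPreconnected_connectedComponentIn
    obtain ⟨Λ, hΛ⟩ : ∃ Λ : ℍ → ℝ × ℝ, Λ = fun w =>
      (t + Complex.arg (ζ w) / (2 * Real.pi), ‖C.symm (u w)‖) := ⟨_, rfl⟩
    have hΛc : ContinuousOn Λ N := by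
      intro w hw
      obtain ⟨hw1, hw2⟩ := hNsub w hw
      refine ContinuousAt.continuousWithinAt ?_
      rw [hΛ]
      refine ContinuousAt.prodMk ?_ ?_
      · refine continuousAt_const.add (ContinuousAt.div_const ?_ _)
        exact (Complex.continuousAt_arg hw2).comp (hζc w hw1)
      · exact ((C.continuousAt_symm hw1).comp (ucont hu).continuousAt).norm
    have hΛI : ∀ w ∈ N, (Λ w).2 ∈ Ioo (1 / 2 : ℝ) 2 := by
      intro w hw
      have h := C.map_target (hNsub w hw).1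
      rw [hc.src] at h
      rw [hΛ]
      exact h
    have hEq := ueqOn hu (A := ℍ) hNpre (g₁ := fun w => W (Λ w).1 (Λ w).2) (g₂ := fun w => w)
      (hcont.comp hΛc (fun w hw => (hmem _ _).2 (hΛI w hw))) continuousOn_id
      (by
        intro w hw
        rw [hlift _ _ (hΛI w hw), ← C.right_inv (hNsub w hw).1]
        congr 1
        rw [hΛ]
        change ((‖C.symm (u w)‖ : ℝ) : ℂ) * Complex.exp (2 * Real.pi * Complex.I *
          ((t + Complex.arg (ζ w) / (2 * Real.pi) : ℝ) : ℂ)) = C.symm (u w)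
        have e1 : (2 * Real.pi * Complex.I * ((t + Complex.arg (ζ w) / (2 * Real.pi) : ℝ) : ℂ) : ℂ)
            = 2 * Real.pi * Complex.I * t + Complex.arg (ζ w) * Complex.I := by
          have : (Real.pi : ℂ) ≠ 0 := by exact_mod_cast Real.pi_ne_zero
          push_cast
          field_simp
        have e2 : ‖C.symm (u w)‖ = ‖ζ w‖ := by
          rw [hζ]
          simp [hen]
        have e3 : C.symm (u w) = ζ w * e := by
          rw [hζ]
          change C.symm (u w) = C.symm (u w) * e⁻¹ * e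
          rw [inv_mul_cancel_right₀ he0]
        rw [e1, Complex.exp_add, ← he, e2, e3]
        have e4 := Complex.norm_mul_exp_arg_mul_I (ζ w)
        calc (‖ζ w‖ : ℂ) * (e * Complex.exp (Complex.arg (ζ w) * Complex.I))
            = (‖ζ w‖ * Complex.exp (Complex.arg (ζ w) * Complex.I)) * e := by ring
          _ = ζ w * e := by rw [e4])
      (x₀ := ω t) (mem_of_mem_nhds hN)
      (by
        have h4 : ζ (ω t) = 1 := by
          rw [hζ]
          change C.symm (u (ω t)) * e⁻¹ = 1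
          rw [hcore, C.left_inv hesrc, mul_inv_cancel₀ he0]
        have h5 : Λ (ω t) = (t, 1) := by
          rw [hΛ]
          change (t + Complex.arg (ζ (ω t)) / (2 * Real.pi), ‖C.symm (u (ω t))‖) = (t, 1)
          rw [h4, hcore, C.left_inv hesrc, hen]
          simp
        rw [h5]
        exact hone t)
    filter_upwards [hN] with w hw
    exact ⟨_, _, hΛI w hw, hEq hw⟩
  -- signs
  obtain ⟨hax, hpre⟩ := hPRE X p P u C K γ ω hc
  obtain ⟨g, hg, rfl⟩ := mem_deck.1 hc.deck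
  have hnotin : ∀ t : ℝ, ∀ s ∈ Ioo (1 / 2 : ℝ) 2, s ≠ 1 →
      C (s * Complex.exp (2 * Real.pi * Complex.I * t)) ∉ C '' sphere (0 : ℂ) 1 := by
    rintro t s hs hs1 ⟨z, hz, hz'⟩
    have hzn : ‖z‖ = 1 := by simpa using hz
    have hzs : z ∈ C.source := by
      rw [hc.src]
      change 1 / 2 < ‖z‖ ∧ ‖z‖ < 2
      rw [hzn]
      norm_num
    have e := C.injOn hzs (hsrc t s hs) hz'
    apply hs1
    rw [← norm_pt (t := t) (s := s) (by linarith [hs.1]), ← e, hzn]
  have hsf0 : ∀ t, ∀ s ∈ Ioo (1 / 2 : ℝ) 2, s ≠ 1 → sf g (W t s) ≠ 0 := by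
    intro t s hs hs1 h
    apply hnotin t s hs hs1
    rw [← hlift t s hs]
    refine (hpre _).2 ⟨1, (deck u).one_mem, ?_⟩
    have e : (1 : ℍ ≃ₜ ℍ) * mh g * (1 : ℍ ≃ₜ ℍ)⁻¹ = mh g := by simp
    rw [e, ax_mh]
    exact h
  have hsf1 : ∀ t, sf g (W t 1) = 0 := by
    intro t
    rw [hone]
    exact (ax_mh g _).1 (hc.geo t)
  have hsfc : ContinuousOn (fun q : ℝ × ℝ => sf g (W q.1 q.2)) AA :=
    (sf_cont g).comp_continuousOn hcont
  have hlow : ∀ t t', ∀ s ∈ Ioo (1 / 2 : ℝ) 1, ∀ s' ∈ Ioo (1 / 2 : ℝ) 1,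
      0 < sf g (W t s) * sf g (W t' s') := by
    intro t t' s hs s' hs'
    refine sign_const (S := univ ×ˢ Ioo (1 / 2 : ℝ) 1) (f := fun q : ℝ × ℝ => sf g (W q.1 q.2))
      (isPreconnected_univ.prod isPreconnected_Ioo) (hsfc.mono ?_) ?_ (x := (t, s))
      (y := (t', s')) ⟨mem_univ _, hs⟩ ⟨mem_univ _, hs'⟩
    · rintro ⟨a, b⟩ ⟨-, hb⟩
      exact (hmem a b).2 ⟨hb.1, lt_trans hb.2 (by norm_num)⟩
    · rintro ⟨a, b⟩ ⟨-, hb⟩
      exact hsf0 a b ⟨hb.1, lt_trans hb.2 (by norm_num)⟩ (ne_of_lt hb.2)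
  have hhigh : ∀ t t', ∀ s ∈ Ioo (1 : ℝ) 2, ∀ s' ∈ Ioo (1 : ℝ) 2,
      0 < sf g (W t s) * sf g (W t' s') := by
    intro t t' s hs s' hs'
    refine sign_const (S := univ ×ˢ Ioo (1 : ℝ) 2) (f := fun q : ℝ × ℝ => sf g (W q.1 q.2))
      (isPreconnected_univ.prod isPreconnected_Ioo) (hsfc.mono ?_) ?_ (x := (t, s))
      (y := (t', s')) ⟨mem_univ _, hs⟩ ⟨mem_univ _, hs'⟩
    · rintro ⟨a, b⟩ ⟨-, hb⟩
      exact (hmem a b).2 ⟨lt_trans (by norm_num) hb.1, hb.2⟩
    · rintro ⟨a, b⟩ ⟨-, hb⟩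
      exact hsf0 a b ⟨lt_trans (by norm_num) hb.1, hb.2⟩ (ne_of_gt hb.1)
  have hsides : ∀ t t', ∀ s ∈ Ioo (1 / 2 : ℝ) 1, ∀ s' ∈ Ioo (1 : ℝ) 2,
      sf g (W t s) * sf g (W t' s') < 0 := by
    have h0 : sf g (ω 0) = 0 := (ax_mh g _).1 (hc.geo 0)
    obtain ⟨hb1, hb2⟩ := both g (ω 0) (W 0 (3 / 4)) h0
      (hsf0 0 (3 / 4) ⟨by norm_num, by norm_num⟩ (by norm_num))
    obtain ⟨w1, hw1, t1, s1, hs1, rfl⟩ := (hb1.and_eventually (hsurj 0)).exists
    obtain ⟨w2, hw2, t2, s2, hs2, rfl⟩ := (hb2.and_eventually (hsurj 0)).exists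
    intro t t' s hs s' hs'
    rcases lt_trichotomy s1 1 with a | a | a
    · rcases lt_trichotomy s2 1 with b | b | b
      · have := hlow t1 t2 s1 ⟨hs1.1, a⟩ s2 ⟨hs2.1, b⟩
        nlinarith
      · rw [b, hsf1] at hw2
        exact absurd hw2 (lt_irrefl _)
      · have e1 := hlow t t1 s hs s1 ⟨hs1.1, a⟩
        have e2 := hhigh t' t2 s' hs' s2 ⟨b, hs2.2⟩
        have e3 : 0 < sf g (W t s) := by
          by_contra h
          nlinarith
        have e4 : sf g (W t' s') < 0 := by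
          by_contra h
          nlinarith
        exact mul_neg_of_pos_of_neg e3 e4
    · rw [a, hsf1] at hw1
      exact absurd hw1 (lt_irrefl _)
    · rcases lt_trichotomy s2 1 with b | b | b
      · have e1 := hlow t t2 s hs s2 ⟨hs2.1, b⟩
        have e2 := hhigh t' t1 s' hs' s1 ⟨a, hs1.2⟩
        have e3 : sf g (W t s) < 0 := by
          by_contra h
          nlinarith
        have e4 : 0 < sf g (W t' s') := by
          by_contra h
          nlinarith
        exact mul_neg_of_neg_of_pos e3 e4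
      · rw [b, hsf1] at hw2
        exact absurd hw2 (lt_irrefl _)
      · have := hhigh t1 t2 s1 ⟨a, hs1.2⟩ s2 ⟨b, hs2.2⟩
        nlinarith
  rw [hAA] at hcont
  refine ⟨W, hcont, hone, hlift, hper, ?_, ?_⟩
  · intro t t' s hs s' hs'
    exact (Sz_mh g _ _).2 (hsides t t' s hs s' hs')
  · intro t
    filter_upwards [hsurj t] with w hw
    obtain ⟨t', s', hs', rfl⟩ := hw
    rw [Sz_mh, Sz_mh]
    constructor
    · intro h
      rcases lt_trichotomy s' 1 with a | a | a
      · exact absurd h (not_lt.2 (hlow t' 0 s' ⟨hs'.1, a⟩ (3 / 4)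
          ⟨by norm_num, by norm_num⟩).le)
      · rw [a, hsf1, zero_mul] at h
        exact absurd h (lt_irrefl _)
      · rw [hlift t' s' hs', hc.col _ (hsrc t' s' hs'), norm_pt (by linarith [hs'.1])]
        exact not_le.2 a
    · intro h
      rcases lt_trichotomy s' 1 with a | a | a
      · have hK : u (W t' s') ∈ K := by
          rw [hlift t' s' hs', hc.col _ (hsrc t' s' hs'), norm_pt (by linarith [hs'.1])]
          exact a.le
        by_contra hint
        have hfr : u (W t' s') ∈ frontier K := ⟨subset_closure hK, hint⟩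
        rw [hc.fr, hlift t' s' hs'] at hfr
        exact hnotin t' s' hs' (ne_of_lt a) hfr
      · rw [a, hsf1, zero_mul] at h
        exact absurd h (lt_irrefl _)
      · exact absurd h (not_lt.2 (hhigh t' 0 s' ⟨a, hs'.2⟩ (3 / 2)
          ⟨by norm_num, by norm_num⟩).le)

end Pool.Agent.Helper50.LN
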